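import Pool.Agent.Lib.MP_1a91b9_nuT.S9.Defs

/-!
# The `p`-part of the conjecture of Birch and Swinnerton-Dyer: definitions

All definitions are for general Weierstrass curves `W` over a number field `N`; `Sha`, `tam`,
`period` are those of `MP_1a91b9_nuT.S9.Defs`.
-/

set_option autoImplicit false

namespace Pool.Agent.Lib.MP_1a91b9_nuT3.S9

variable [Pool.Agent.Lib.MP_1a91b9_nuT.CD]

open NumberField IsDedekindDomain WeierstrassCurve Pool.Agent.Lib.MP_1a91b9_nuT.S9

open scoped Classical

noncomputable section

variable {N : Type*} [Field N] [NumberField N]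

/-- The `p`-primary part of the Tate-Shafarevich group. -/
abbrev ShaP (p : ℕ) [Fact p.Prime] (W : WeierstrassCurve N) : Type _ :=
  AddCommGroup.primaryComponent (Sha W) p

/-- `x` is a non-zero algebraic number which is a unit at all places above `p`: both `x` and its
inverse become algebraic integers after multiplication by an integer prime to `p`. -/
def UnitAt (p : ℕ) (x : ℝ) : Prop :=
  x ≠ 0 ∧ (∃ m : ℤ, IsCoprime m (p : ℤ) ∧ IsIntegral ℤ (m * x)) ∧
    ∃ m : ℤ, IsCoprime m (p : ℤ) ∧ IsIntegral ℤ (m * x⁻¹)


end

end Pool.Agent.Lib.MP_1a91b9_nuT3.S9
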